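import Pool.Agent.MP_542436_nt.Sp.Spec
import Pool.Agent.MP_542436_nt.H87.S2

set_option autoImplicit false

namespace Pool.Agent.MP_542436_nt.H84

open Polynomial NumberField Pool.Agent.MP_542436_nt.Sp

theorem disc (hP : PlcStmt) {K : Type} [Field K] [NumberField K] {d : ℕ} {θ : K} (h : St d θ) :
    ∃ D : ℤ, D ≠ 0 ∧ ∃ U V : ℤ[X], U * minpoly ℤ θ + V * derivative (minpoly ℤ θ) = C D := by
  have hd := (hP.minp K d θ h).1
  have h6 := h.six
  have hs : (minpoly ℚ θ).Separable := Algebra.IsSeparable.isSeparable ℚ θ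
  rw [minpoly.isIntegrallyClosed_eq_field_fractions' ℚ h.int, Separable, derivative_map] at hs
  refine ⟨resultant (minpoly ℤ θ) (derivative (minpoly ℤ θ)) (minpoly ℤ θ).natDegree
    (derivative (minpoly ℤ θ)).natDegree, ?_, ?_⟩
  · have := resultant_ne_zero _ _ hs
    rw [natDegree_map_eq_of_injective (algebraMap ℤ ℚ).injective_int,
      natDegree_map_eq_of_injective (algebraMap ℤ ℚ).injective_int, resultant_map_map] at this
    intro h0
    rw [h0, map_zero] at this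
    exact this rfl
  · obtain ⟨p, q, -, -, e⟩ := exists_mul_add_mul_eq_C_resultant (minpoly ℤ θ)
      (derivative (minpoly ℤ θ)) le_rfl le_rfl (Or.inl (by omega))
    exact ⟨p, q, by rw [← e]; ring⟩

theorem hv_sub {R : Type} [CommRing R] (g : ℤ[X]) (r : ℕ) (hg : g.natDegree ≤ r) (a b : ℤ)
    (z : R) : (a : R) - z * b ∣ ((H5.hv g r (a, b) : ℤ) : R) - aeval z g * (b : R) ^ r := by
  rw [H5.hv, aeval_eq_sum_range' (Nat.lt_succ_of_le hg), Finset.sum_mul, Int.cast_sum,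
    ← Finset.sum_sub_distrib]
  refine Finset.dvd_sum fun k hk => ?_
  have hk' : k ≤ r := Nat.lt_succ_iff.1 (Finset.mem_range.1 hk)
  have e : (b : R) ^ r = (b : R) ^ k * (b : R) ^ (r - k) := by
    rw [← pow_add, Nat.add_sub_cancel' hk']
  have h1 := sub_dvd_pow_sub_pow (a : R) (z * b) k
  have e2 : ((g.coeff k * a ^ k * b ^ (r - k) : ℤ) : R) - g.coeff k • z ^ k * (b : R) ^ r =
      ((a : R) ^ k - (z * b) ^ k) * ((g.coeff k : R) * (b : R) ^ (r - k)) := by
    rw [e, zsmul_eq_mul]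
    push_cast
    ring
  rw [e2]
  exact h1.mul_right _

theorem root (p : ℕ) [Fact p.Prime] (F : ℤ[X]) (x : ℤ) (h1 : (p : ℤ) ^ 2 ∣ F.eval x)
    (h2 : ¬ (p : ℤ) ∣ F.derivative.eval x) :
    ∃ z : ℤ_[p], aeval z F = 0 ∧ ‖(x : ℤ_[p]) - z‖ ≤ (p : ℝ) ^ (-(2 : ℕ) : ℤ) := by
  have e1 : ∀ G : ℤ[X], aeval (x : ℤ_[p]) G = ((G.eval x : ℤ) : ℤ_[p]) := fun G => by
    rw [← eq_intCast (algebraMap ℤ ℤ_[p]), aeval_algebraMap_apply_eq_algebraMap_eval, eq_intCast]
  have n1 : ‖aeval (x : ℤ_[p]) F‖ ≤ (p : ℝ) ^ (-(2 : ℕ) : ℤ) := by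
    rw [e1]
    exact PadicInt.norm_int_le_pow_iff_dvd.2 h1
  have n2 : ‖aeval (x : ℤ_[p]) F.derivative‖ = 1 := by
    rw [e1]
    exact le_antisymm (PadicInt.norm_le_one _)
      (not_lt.1 fun h => h2 ((PadicInt.norm_int_lt_one_iff_dvd _).1 h))
  have n3 : ‖aeval (x : ℤ_[p]) F‖ < 1 := by
    rw [e1]
    exact (PadicInt.norm_int_lt_one_iff_dvd _).2 ((dvd_pow_self _ two_ne_zero).trans h1)
  obtain ⟨z, hz, hz1, hz2, -⟩ := hensels_lemma (F := F) (a := (x : ℤ_[p]))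
    (by rw [n2, one_pow]; exact n3)
  rw [n2] at hz1 hz2
  refine ⟨z, hz, ?_⟩
  obtain ⟨k, hk⟩ := binomExpansion (F.map (algebraMap ℤ ℤ_[p])) z ((x : ℤ_[p]) - z)
  rw [add_sub_cancel, derivative_map, eval_map_algebraMap, eval_map_algebraMap,
    eval_map_algebraMap, hz] at hk
  have e2 : aeval (x : ℤ_[p]) F =
      ((x : ℤ_[p]) - z) * (aeval z F.derivative + k * ((x : ℤ_[p]) - z)) := by
    rw [hk]; ring
  have n4 : ‖k * ((x : ℤ_[p]) - z)‖ < 1 := by
    rw [norm_mul, norm_sub_rev]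
    exact lt_of_le_of_lt (mul_le_of_le_one_left (norm_nonneg _) (PadicInt.norm_le_one _)) hz1
  have n5 : ‖aeval z F.derivative + k * ((x : ℤ_[p]) - z)‖ = 1 := by
    rw [PadicInt.norm_add_eq_max_of_ne (by rw [hz2]; exact n4.ne'), hz2, max_eq_left n4.le]
  rwa [e2, norm_mul, n5, mul_one] at n1

theorem pw2 (p : ℕ) : (p : ℝ) ^ (-(2 : ℕ) : ℤ) = 1 / (p : ℝ) ^ 2 := by
  rw [zpow_neg, zpow_natCast, one_div]

theorem hensel (hP : PlcStmt) : HenselStmt := by
  intro K _ _ d θ h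
  obtain ⟨D, hD, U, V, hUV⟩ := disc hP h
  obtain ⟨hd, hd'⟩ := hP.minp K d θ h
  have hmon := minpoly.monic h.int
  refine ⟨D.natAbs + 1, fun p hp hp1 a b hab hdv => ?_⟩
  have := Fact.mk hp
  have hpz : Prime (p : ℤ) := Nat.prime_iff_prime_int.1 hp
  have hpD : ¬ (p : ℤ) ∣ D := fun h1 => by
    have := Nat.le_of_dvd (Int.natAbs_pos.2 hD) (Int.natCast_dvd.1 h1)
    omega
  have hc : IsCoprime a b := Int.isCoprime_iff_gcd_eq_one.2 hab
  have hb : ¬ (p : ℤ) ∣ b := fun h1 => by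
    have h3 := (dvd_pow_self _ two_ne_zero).trans hdv
    rw [H5.hv, Finset.sum_range_succ, Nat.sub_self, pow_zero, mul_one] at h3
    have h4 := (dvd_add_right (Finset.dvd_sum fun k hk =>
      (dvd_pow h1 (by have := Finset.mem_range.1 hk; omega)).mul_left _)).1 h3
    rw [← hd, hmon.coeff_natDegree, one_mul] at h4
    exact hpz.not_isUnit (hc.isUnit_of_dvd' (hpz.dvd_of_dvd_pow h4) h1)
  have hco : IsCoprime ((p : ℤ) ^ 2) b := (hpz.irreducible.coprime_iff_not_dvd.2 hb).pow_left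
  obtain ⟨u, w, huw⟩ := id hco
  have h1 : (p : ℤ) ^ 2 ∣ a - w * a * b := ⟨u * a, by linear_combination (-a) * huw⟩
  generalize w * a = x at h1
  have h2 : (p : ℤ) ^ 2 ∣ (minpoly ℤ θ).eval x := by
    have h3 := hv_sub (R := ℤ) (minpoly ℤ θ) d hd.le a b x
    simp only [Int.cast_id, coe_aeval_eq_eval] at h3
    have h4 := dvd_sub hdv (h1.trans h3)
    rw [sub_sub_cancel] at h4
    exact (hco.pow_right (n := d)).dvd_of_dvd_mul_right h4
  have h3 : ¬ (p : ℤ) ∣ (minpoly ℤ θ).derivative.eval x := fun h4 => by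
    have h5 := congrArg (eval x) hUV
    rw [eval_add, eval_mul, eval_mul, eval_C] at h5
    refine hpD ?_
    rw [← h5]
    exact dvd_add (((dvd_pow_self _ two_ne_zero).trans h2).mul_left _) (h4.mul_left _)
  obtain ⟨z, hz, hzx⟩ := root p _ x h2 h3
  have hQ : IsIntegral ℚ θ := h.int.tower_top
  have htop : Algebra.adjoin ℚ {θ} = ⊤ := by
    rw [← IntermediateField.adjoin_simple_toSubalgebra_of_isAlgebraic hQ.isAlgebraic,
      (Field.primitive_element_iff_minpoly_natDegree_eq ℚ θ).2 (hd'.trans h.rk.symm),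
      IntermediateField.top_toSubalgebra]
  have hz' : aeval (z : ℚ_[p]) (minpoly ℚ (PowerBasis.ofAdjoinEqTop hQ htop).gen) = 0 := by
    rw [PowerBasis.ofAdjoinEqTop_gen, minpoly.isIntegrallyClosed_eq_field_fractions' ℚ h.int,
      aeval_map_algebraMap]
    have := aeval_algebraMap_apply ℚ_[p] z (minpoly ℤ θ)
    rw [hz, map_zero] at this
    exact this
  let φ : K →+* ℚ_[p] := ((PowerBasis.ofAdjoinEqTop hQ htop).lift _ hz').toRingHom
  have hφ : φ θ = z := (PowerBasis.ofAdjoinEqTop hQ htop).lift_gen _ hz'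
  refine ⟨place φ, ⟨hp, fun s t => ?_, ?_⟩, ?_⟩
  · rw [place_apply, place_apply, place_apply, map_add]
    exact Padic.nonarchimedean _ _
  · rw [place_apply, map_natCast, Padic.norm_p, one_div]
  · rw [place_apply, map_sub, map_mul, map_intCast, map_intCast, hφ, ← pw2]
    have e : (a : ℚ_[p]) - z * b =
        ((((a - x * b : ℤ) : ℤ_[p]) + ((x : ℤ_[p]) - z) * b : ℤ_[p]) : ℚ_[p]) := by
      push_cast
      ring
    rw [e, ← PadicInt.norm_def]
    refine (PadicInt.nonarchimedean _ _).trans (max_le (PadicInt.norm_int_le_pow_iff_dvd.2 h1) ?_)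
    rw [norm_mul]
    exact (mul_le_of_le_one_right (norm_nonneg _) (PadicInt.norm_le_one _)).trans hzx

theorem dvd_hv (hP : PlcStmt) {K : Type} [Field K] [NumberField K] {d : ℕ} {θ : K} (h : St d θ)
    {p : ℕ} {v : AbsoluteValue K ℝ} (hv : Plc p v) {a b : ℤ}
    (ht : v ((a : K) - θ * b) ≤ 1 / (p : ℝ) ^ 2) : (p : ℤ) ^ 2 ∣ H5.hv (minpoly ℤ θ) d (a, b) := by
  refine hP.dvd_of K p v _ 2 hv ?_
  let z : 𝓞 K := ⟨θ, h.int⟩
  obtain ⟨w, hw⟩ := hv_sub (minpoly ℤ θ) d (hP.minp K d θ h).1.le a b z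
  have h1 := congrArg (algebraMap (𝓞 K) K) hw
  rw [map_sub, map_mul, map_mul, map_sub, map_mul, ← aeval_algebraMap_apply, map_intCast,
    map_intCast, map_intCast] at h1
  have hz : algebraMap (𝓞 K) K z = θ := rfl
  rw [hz, minpoly.aeval, zero_mul, sub_zero] at h1
  rw [h1, map_mul]
  exact (mul_le_of_le_one_right (v.nonneg _) (hP.int_le K p v _ hv w.2)).trans ht

theorem two (m x : ℤ) (X : ℝ) (hm : 2 * X ^ 2 < m) (E : Finset (ℤ × ℤ))
    (hE : ∀ e ∈ E, Int.gcd e.1 e.2 = 1 ∧ |(e.1 : ℝ)| ≤ X ∧ |(e.2 : ℝ)| ≤ X ∧ m ∣ e.1 - x * e.2) :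
    E.card ≤ 2 := by
  classical
  rcases E.eq_empty_or_nonempty with rfl | ⟨e, he⟩
  · simp
  refine (Finset.card_le_card (t := {e, -e}) fun f hf => ?_).trans Finset.card_le_two
  obtain ⟨c1, a1, b1, d1⟩ := hE e he
  obtain ⟨c2, a2, b2, d2⟩ := hE f hf
  have h1 : m ∣ e.1 * f.2 - f.1 * e.2 := by
    have := dvd_sub (d1.mul_right f.2) (d2.mul_right e.2)
    rwa [show (e.1 - x * e.2) * f.2 - (f.1 - x * f.2) * e.2 = e.1 * f.2 - f.1 * e.2 by ring] at this
  have hX : 0 ≤ X := (abs_nonneg _).trans a1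
  have h2 : |e.1 * f.2 - f.1 * e.2| < m := by
    have : |((e.1 * f.2 - f.1 * e.2 : ℤ) : ℝ)| < m := by
      push_cast
      refine lt_of_le_of_lt ((abs_sub _ _).trans ?_) hm
      rw [abs_mul, abs_mul]
      have := mul_le_mul a1 b2 (abs_nonneg _) hX
      have := mul_le_mul a2 b1 (abs_nonneg _) hX
      nlinarith
    exact_mod_cast this
  have h3 := Int.eq_zero_of_abs_lt_dvd h1 h2
  obtain ⟨u, w, huw⟩ := Int.isCoprime_iff_gcd_eq_one.2 c1
  have e1 : f.1 = (u * f.1 + w * f.2) * e.1 := by linear_combination (-f.1) * huw - w * h3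
  have e2 : f.2 = (u * f.1 + w * f.2) * e.2 := by linear_combination (-f.2) * huw + u * h3
  generalize u * f.1 + w * f.2 = t at e1 e2
  have h4 := (Int.isCoprime_iff_gcd_eq_one.2 c2).isUnit_of_dvd' ⟨_, e1⟩ ⟨_, e2⟩
  rw [Finset.mem_insert, Finset.mem_singleton]
  rcases Int.isUnit_iff.1 h4 with rfl | rfl
  · exact Or.inl (Prod.ext (by linarith) (by linarith))
  · exact Or.inr (Prod.ext (by rw [Prod.fst_neg]; linarith) (by rw [Prod.snd_neg]; linarith))

theorem fewDiv (hP : PlcStmt) : FewDivStmt := by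
  classical
  intro K _ _ d θ h c
  obtain ⟨D, hD, hUV⟩ := disc hP h
  have hd := (hP.minp K d θ h).1
  have hmon := minpoly.monic h.int
  refine ⟨c * (d * 2), D.natAbs + 3, fun X hX N hN hNX E hE => ?_⟩
  have hD0 : (0 : ℝ) ≤ D.natAbs := Nat.cast_nonneg _
  have hX3 : 3 ≤ X := by linarith
  have hX1 : X ≤ X ^ ((3 : ℝ) / 2) := by
    conv_lhs => rw [← Real.rpow_one X]
    exact Real.rpow_le_rpow_of_exponent_le (by linarith) (by norm_num)
  have hX2 : (X ^ ((3 : ℝ) / 2)) ^ 2 = X ^ 3 := by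
    rw [← Real.rpow_natCast, ← Real.rpow_mul (by linarith), ← Real.rpow_natCast]
    norm_num
  set P := N.natAbs.primeFactors.filter (fun p : ℕ => X ^ ((3 : ℝ) / 2) ≤ (p : ℝ)) with hPdef
  have hPc : P.card ≤ c := by
    have h1 : ∏ p ∈ P, p ∣ N.natAbs :=
      (Finset.prod_dvd_prod_of_subset _ _ _ (Finset.filter_subset _ _)).trans
        (Nat.prod_primeFactors_dvd _)
    have h2 : ((∏ p ∈ P, p : ℕ) : ℝ) ≤ |(N : ℝ)| := by
      rw [← Int.cast_abs, Int.abs_eq_natAbs, Int.cast_natCast]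
      exact_mod_cast Nat.le_of_dvd (Int.natAbs_pos.2 hN) h1
    have h3 : X ^ P.card ≤ ((∏ p ∈ P, p : ℕ) : ℝ) := by
      rw [Nat.cast_prod, ← Finset.prod_const]
      exact Finset.prod_le_prod (fun _ _ => by linarith)
        fun p hp => hX1.trans (Finset.mem_filter.1 hp).2
    exact (pow_le_pow_iff_right₀ (by linarith : 1 < X)).1 (h3.trans (h2.trans hNX))
  have key : ∀ p ∈ P,
      (E.filter (fun e => (p : ℤ) ^ 2 ∣ H5.hv (minpoly ℤ θ) d e)).card ≤ d * 2 := by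
    intro p hp
    obtain ⟨hp1, hp2⟩ := Finset.mem_filter.1 hp
    have hpp := Nat.prime_of_mem_primeFactors hp1
    have hpz : Prime (p : ℤ) := Nat.prime_iff_prime_int.1 hpp
    have hpD : ¬ (p : ℤ) ∣ D := fun h1 => by
      have h2 : (p : ℝ) ≤ D.natAbs := by
        exact_mod_cast Nat.le_of_dvd (Int.natAbs_pos.2 hD) (Int.natCast_dvd.1 h1)
      linarith
    obtain ⟨Xs, hXs, hcov⟩ := H87.cls d (minpoly ℤ θ) D (p ^ 2) (pow_pos hpp.pos 2) hd.le
      (by rw [← hd, hmon.coeff_natDegree]; exact one_dvd _) hUV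
      (by push_cast; exact (hpz.irreducible.coprime_iff_not_dvd.2 hpD).pow_left)
    rw [Nat.primeFactors_prime_pow two_ne_zero hpp, Finset.card_singleton, pow_one] at hXs
    calc _ ≤ (Xs.biUnion fun x => E.filter (fun e => (p : ℤ) ^ 2 ∣ e.1 - x * e.2)).card := by
          refine Finset.card_le_card fun e he => ?_
          obtain ⟨he1, he2⟩ := Finset.mem_filter.1 he
          obtain ⟨Q, hQ, rfl⟩ := hE e he1
          obtain ⟨x, hx, hx'⟩ := hcov (Q.a, Q.b) hQ.1.cop (by exact_mod_cast he2)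
          exact Finset.mem_biUnion.2 ⟨x, hx, Finset.mem_filter.2 ⟨he1, by exact_mod_cast hx'⟩⟩
      _ ≤ Xs.card * 2 := by
          refine Finset.card_biUnion_le_card_mul _ _ _ fun x _ => ?_
          refine two ((p : ℤ) ^ 2) x X ?_ _ fun e he => ?_
          · push_cast
            have h1 : X ^ 3 ≤ (p : ℝ) ^ 2 := by
              rw [← hX2]
              exact pow_le_pow_left₀ (by linarith) hp2 2
            have h2 : 0 < X ^ 2 := by positivity
            nlinarith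
          · obtain ⟨he1, he2⟩ := Finset.mem_filter.1 he
            obtain ⟨Q, hQ, rfl⟩ := hE e he1
            exact ⟨hQ.1.cop, hQ.1.ha, hQ.1.hb, he2⟩
      _ ≤ d * 2 := Nat.mul_le_mul_right _ hXs
  have fin : E.card ≤ c * (d * 2) :=
    calc _ ≤ (P.biUnion fun p : ℕ =>
            E.filter (fun e => (p : ℤ) ^ 2 ∣ H5.hv (minpoly ℤ θ) d e)).card := by
          refine Finset.card_le_card fun e he => ?_
          obtain ⟨Q, ⟨hQ, hQ1, hQ2⟩, rfl⟩ := hE e he
          refine Finset.mem_biUnion.2 ⟨Q.p, Finset.mem_filter.2 ⟨Nat.mem_primeFactors.2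
            ⟨hQ.plc.prime, Int.natCast_dvd.1 hQ2, Int.natAbs_ne_zero.2 hN⟩, hQ1⟩,
            Finset.mem_filter.2 ⟨he, dvd_hv hP h hQ.plc hQ.vt⟩⟩
      _ ≤ P.card * (d * 2) := Finset.card_biUnion_le_card_mul _ _ _ key
      _ ≤ _ := Nat.mul_le_mul_right _ hPc
  exact_mod_cast fin

end Pool.Agent.MP_542436_nt.H84
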